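import Mathlib

/-!
# Points of bounded degree on projective varieties: definitions and task statements

`k` is a number field, `Ω = AlgebraicClosure k`.
-/

set_option autoImplicit false

namespace Pool.Agent.W229.V

open Module Height
open scoped LinearAlgebra.Projectivization

noncomputable section

variable {k : Type} [Field k] [NumberField k] {N : ℕ}

/-- The residue field `k(P)`: it is generated over `k` by the quotients `x i / x j` of the
homogeneous coordinates. -/
def ptField (P : ℙ (AlgebraicClosure k) (Fin (N + 1) → AlgebraicClosure k)) :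
    IntermediateField k (AlgebraicClosure k) :=
  IntermediateField.adjoin k (Set.range fun ij : Fin (N + 1) × Fin (N + 1) => P.rep ij.1 / P.rep ij.2)

instance finDim (P : ℙ (AlgebraicClosure k) (Fin (N + 1) → AlgebraicClosure k)) :
    FiniteDimensional k (ptField P) :=
  IntermediateField.finiteDimensional_adjoin (S := Set.range _) fun x _ =>
    Algebra.IsIntegral.isIntegral x

/-- a finite extension of a number field inside its algebraic closure is a number field -/
theorem numberField_of_finiteDimensional (K : IntermediateField k (AlgebraicClosure k))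
    [FiniteDimensional k K] : NumberField K where
  to_charZero := inferInstance
  to_finiteDimensional := by
    have : IsScalarTower ℚ k K := inferInstance
    exact FiniteDimensional.trans ℚ k K

instance nf (P : ℙ (AlgebraicClosure k) (Fin (N + 1) → AlgebraicClosure k)) :
    NumberField (ptField P) := numberField_of_finiteDimensional _

/-- The degree `[k(P) : k]`. -/
def deg (P : ℙ (AlgebraicClosure k) (Fin (N + 1) → AlgebraicClosure k)) : ℕ :=
  finrank k (ptField P)

/-- The homogeneous coordinates of `P` normalised to lie in `k(P)`: all of them are divided by a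
non-zero coordinate. -/
def coord (P : ℙ (AlgebraicClosure k) (Fin (N + 1) → AlgebraicClosure k)) :
    Fin (N + 1) → ptField P := fun i =>
  ⟨P.rep i / P.rep (Function.ne_iff.mp P.rep_nonzero).choose,
    IntermediateField.subset_adjoin k _ ⟨(i, _), rfl⟩⟩

/-- The logarithmic height of `P` relative to `k`: `1/[K:k]` times the logarithmic height over the
number field `K = k(P)` (in the normalisation of Mathlib, the product over the places of `K`). -/
def ht (P : ℙ (AlgebraicClosure k) (Fin (N + 1) → AlgebraicClosure k)) : ℝ :=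
  logHeight (coord P) / deg P

/-- The logarithmic discriminant of `P` relative to `k`. -/
def logDisc (P : ℙ (AlgebraicClosure k) (Fin (N + 1) → AlgebraicClosure k)) : ℝ :=
  Real.log |(NumberField.discr (ptField P) : ℝ)| / deg P -
    Real.log |(NumberField.discr k : ℝ)|

/-- The points over the algebraic closure of `k` of the projective algebraic set defined by a set
`S` of homogeneous polynomials over `k`. -/
def algSet (S : Set (MvPolynomial (Fin (N + 1)) k)) :
    Set (ℙ (AlgebraicClosure k) (Fin (N + 1) → AlgebraicClosure k)) :=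
  {P | ∀ F ∈ S, MvPolynomial.aeval P.rep F = 0}

/-- digits in base `m` -/
def dig (m l j : ℕ) : ℕ := l / m ^ j % m

/-- the monomial in `α 0, …, α (r-1)` whose exponents are the digits of `l` in base `m` -/
def mono {K : Type} [Field K] {r : ℕ} (m : ℕ) (α : Fin r → K) (l : ℕ) : K :=
  ∏ j : Fin r, α j ^ dig m l j

/-! ## Tasks -/

/-- A1a: many small integers (counting form of Minkowski's theorem). -/
def TaskA1a : Prop :=
  ∀ (K : Type) [Field K] [NumberField K] (T : ℝ), 0 < T →
    T ^ finrank ℚ K ≤ 2 ^ finrank ℚ K * Real.sqrt |(NumberField.discr K : ℝ)| *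
      (Set.ncard {a : NumberField.RingOfIntegers K | ∀ σ : K →+* ℂ, ‖σ a‖ < T} : ℝ)

/-- A1b: few small integers in a subspace. -/
def TaskA1b : Prop :=
  ∀ (K : Type) [Field K] [NumberField K] (T : ℝ), 1 ≤ T → ∀ W : Submodule ℚ K,
    (∀ a : NumberField.RingOfIntegers K, (∀ σ : K →+* ℂ, ‖σ a‖ < T) → (a : K) ∈ W) →
    (Set.ncard {a : NumberField.RingOfIntegers K | ∀ σ : K →+* ℂ, ‖σ a‖ < T} : ℝ) ≤
      (3 * T) ^ finrank ℚ W

/-- A1c: a subspace of more than half the dimension generates the field in one product. -/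
def TaskA1c : Prop :=
  ∀ (K : Type) [Field K] [NumberField K] (W : Submodule ℚ K),
    finrank ℚ K < 2 * finrank ℚ W → W * W = ⊤

/-- A1: a basis of small integers. -/
def TaskA1 : Prop :=
  ∀ (K : Type) [Field K] [NumberField K],
    ∃ ω : Fin (finrank ℚ K) → NumberField.RingOfIntegers K,
      LinearIndependent ℚ (fun i => (ω i : K)) ∧
      ∀ i (σ : K →+* ℂ), ‖σ (ω i)‖ ≤
        169 * |(NumberField.discr K : ℝ)| ^ (2 / (finrank ℚ K : ℝ))

/-- A2: a generic tuple of small integers. -/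
def TaskA2 : Prop :=
  ∀ n r m : ℕ, n ≤ m ^ r → ∃ C : ℝ, 1 ≤ C ∧ ∀ (K : Type) [Field K] [NumberField K],
    finrank ℚ K = n → ∀ ω : Fin n → NumberField.RingOfIntegers K,
    LinearIndependent ℚ (fun i => (ω i : K)) → ∀ L : ℝ,
    (∀ i (σ : K →+* ℂ), ‖σ (ω i)‖ ≤ L) →
    ∃ α : Fin r → NumberField.RingOfIntegers K,
      (∀ j (σ : K →+* ℂ), ‖σ (α j)‖ ≤ C * L) ∧
      LinearIndependent ℚ (fun l : Fin n => mono m (fun j => (α j : K)) l)

/-- A3: the traces of few monomials determine the tuple up to conjugacy. -/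
def TaskA3 : Prop :=
  ∀ (n r m : ℕ) (K K' : Type) [Field K] [NumberField K] [Field K'] [NumberField K'],
    n ≤ m ^ r → finrank ℚ K = n → finrank ℚ K' = n →
    ∀ (α : Fin r → K) (α' : Fin r → K'),
      LinearIndependent ℚ (fun l : Fin n => mono m α l) →
      LinearIndependent ℚ (fun l : Fin n => mono m α' l) →
      (∀ e : Fin r → ℕ, (∀ j, e j < 2 * m) →
        Algebra.trace ℚ K (∏ j, α j ^ e j) = Algebra.trace ℚ K' (∏ j, α' j ^ e j)) →
      ∀ τ : K →+* ℂ, ∃ τ' : K' →+* ℂ, ∀ j, τ (α j) = τ' (α' j)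

/-- A4: few number fields of small discriminant. -/
def TaskA4 : Prop :=
  ∀ r : ℕ, 1 ≤ r → ∃ c : ℝ, 0 < c ∧ ∀ n : ℕ, ∃ C : ℝ, ∀ (k : Type) [Field k] [NumberField k] (S : ℝ),
    1 ≤ S →
    {K : IntermediateField k (AlgebraicClosure k) | ∃ _ : NumberField K,
        finrank ℚ K = n ∧ |(NumberField.discr K : ℝ)| ≤ S}.Finite ∧
    (Set.ncard {K : IntermediateField k (AlgebraicClosure k) | ∃ _ : NumberField K,
        finrank ℚ K = n ∧ |(NumberField.discr K : ℝ)| ≤ S} : ℝ) ≤
      C * S ^ (c * (n : ℝ) ^ (1 / (r : ℝ)))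

/-- B: points of bounded height over one field, uniformly in the field. -/
def TaskB : Prop :=
  ∀ n N : ℕ, ∃ C : ℝ, ∀ (K : Type) [Field K] [NumberField K], finrank ℚ K = n →
    ∀ Z : ℝ, 1 ≤ Z →
    {P : ℙ K (Fin (N + 1) → K) | mulHeight P.rep ≤ Z}.Finite ∧
    (Set.ncard {P : ℙ K (Fin (N + 1) → K) | mulHeight P.rep ≤ Z} : ℝ) ≤
      C * Z ^ (4 * ((N : ℝ) + 1))

/-- C1: the height of a point with integral coordinates. -/
def TaskC1 : Prop :=
  ∀ (k : Type) [Field k] [NumberField k] (N : ℕ) (x : Fin (N + 1) → AlgebraicClosure k)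
    (hx : x ≠ 0) (j : Fin (N + 1)) (c : k), x j = algebraMap k (AlgebraicClosure k) c → c ≠ 0 →
    (∀ i, IsIntegral ℤ (x i)) → ∀ R : ℝ, 1 ≤ R →
    (∀ (σ : AlgebraicClosure k →+* ℂ) i, ‖σ (x i)‖ ≤ R) →
    ht (Projectivization.mk (AlgebraicClosure k) x hx) ≤ finrank ℚ k * Real.log R

/-- C2: an injective family of points on an infinite algebraic set, parametrised by the
algebraic integers. -/
def TaskC2 : Prop :=
  ∀ (k : Type) [Field k] [NumberField k] (N : ℕ) (S : Set (MvPolynomial (Fin (N + 1)) k)),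
    (∀ F ∈ S, ∃ e, F.IsHomogeneous e) → (algSet S).Infinite →
    ∃ (e : ℕ) (C D : ℝ)
      (f : AlgebraicClosure k → ℙ (AlgebraicClosure k) (Fin (N + 1) → AlgebraicClosure k)),
      1 ≤ e ∧ 0 < D ∧ Set.InjOn f {ξ | IsIntegral ℤ ξ} ∧
      ∀ ξ : AlgebraicClosure k, IsIntegral ℤ ξ →
        f ξ ∈ algSet S ∧ deg (f ξ) ≤ e * (minpoly ℚ ξ).natDegree ∧
        ∀ R : ℝ, 1 ≤ R → (∀ σ : AlgebraicClosure k →+* ℂ, ‖σ ξ‖ ≤ R) →
          ht (f ξ) ≤ C + D * Real.log R

/-- C3: many algebraic integers of degree `r` with small conjugates. -/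
def TaskC3 : Prop :=
  ∀ (Ω : Type) [Field Ω] [CharZero Ω] [IsAlgClosed Ω] (r μ : ℕ), 1 ≤ r → 1 ≤ μ →
    ∃ s : Finset Ω, μ ^ (r * (r + 1) / 2) ≤ s.card ∧ ∀ ξ ∈ s, IsIntegral ℤ ξ ∧
      (minpoly ℚ ξ).natDegree = r ∧ ∀ σ : Ω →+* ℂ, ‖σ ξ‖ ≤ 8 * μ

/-- N: Northcott's theorem for points of bounded degree. -/
def TaskN : Prop :=
  ∀ (k : Type) [Field k] [NumberField k] (N d : ℕ) (T : ℝ),
    {P : ℙ (AlgebraicClosure k) (Fin (N + 1) → AlgebraicClosure k) | deg P ≤ d ∧ ht P ≤ T}.Finite

/-- The final theorem. -/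
def Main : Prop :=
  ∀ (k : Type) [Field k] [NumberField k] (N : ℕ) (S : Set (MvPolynomial (Fin (N + 1)) k)),
    (∀ F ∈ S, ∃ e, F.IsHomogeneous e) → (algSet S).Infinite →
    ∀ δ : ℝ, 0 < δ → ∃ c : ℝ, 0 < c ∧ ∃ d₀ : ℕ, ∀ d : ℕ, d₀ ≤ d → ∀ C : ℝ,
      ∀ᶠ B : ℝ in Filter.atTop,
        {P | P ∈ algSet S ∧ deg P ≤ d ∧ ht P ≤ Real.log B}.Finite ∧
        (Set.ncard {P | P ∈ algSet S ∧ deg P ≤ d ∧ ht P ≤ Real.log B ∧
          logDisc P ≤ (d : ℝ) ^ (1 - δ) * ht P + C} : ℝ) ≤
        B ^ (-(c * (d : ℝ) ^ 2)) *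
          Set.ncard {P | P ∈ algSet S ∧ deg P ≤ d ∧ ht P ≤ Real.log B}

end

end Pool.Agent.W229.V
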